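import Pool.Agent.Lib.MP_8dd8b0_nt.Lucas

/-!
# Semiprimes satisfying the central binomial congruence are sparse

We show that the number of `n ≤ N` of the form `n = p q` (distinct odd primes) with
`C(n-1, (n-1)/2) ≡ (-1)^((n-1)/2) (mod n)` is `O(N^(6/7))`.
-/

namespace Pool.Agent.Results.MP_8dd8b0_nt.SparseExceptions

open Finset Pool.Agent.Lib.MP_8dd8b0_nt

/-- The congruence `(∗)`: `C(n-1, (n-1)/2) ≡ (-1)^((n-1)/2) (mod n)`. -/
def Star (n : ℕ) : Prop :=
  ((Nat.choose (n - 1) ((n - 1) / 2) : ℕ) : ℤ) ≡ (-1 : ℤ) ^ ((n - 1) / 2) [ZMOD (n : ℤ)]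

/-- `n` is a counterexample to the conjecture: a product of two distinct odd primes
satisfying `(∗)`. -/
def Exceptional (n : ℕ) : Prop :=
  ∃ p q : ℕ, p.Prime ∧ q.Prime ∧ Odd p ∧ Odd q ∧ p ≠ q ∧ n = p * q ∧ Star n

/-- the larger primes `q` compatible with `p` -/
noncomputable def T (p N : ℕ) : Finset ℕ := by
  classical
  exact (range (N / p + 1)).filter (fun q => q.Prime ∧ Odd q ∧ p < q ∧ sb p ((q - 1) / 2) = 1 ∧
    sb q ((p - 1) / 2) = 1)

lemma mem_T {p N q : ℕ} : q ∈ T p N ↔ q < N / p + 1 ∧ q.Prime ∧ Odd q ∧ p < q ∧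
    sb p ((q - 1) / 2) = 1 ∧ sb q ((p - 1) / 2) = 1 := by
  unfold T
  rw [mem_filter, mem_range]

/-- At most `p` primes `q > p` satisfy the condition modulo `q`. -/
lemma card_T_le {p N : ℕ} (hp : p.Prime) (hodd : Odd p) : (T p N).card ≤ p := by
  classical
  obtain ⟨h, rfl⟩ := hodd
  have hh : 1 ≤ h := by
    by_contra hcon
    have : h = 0 := by omega
    subst this
    exact Nat.not_prime_one hp
  set A : ℤ := (-1) ^ h * (Nat.centralBinom h : ℤ) - 1 with hA
  have hcb : 2 ≤ Nat.centralBinom h := Nat.two_le_centralBinom h hh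
  have hcb4 : Nat.centralBinom h ≤ 2 ^ (2 * h) := by
    rw [Nat.centralBinom]
    exact Nat.choose_le_two_pow (2 * h) h
  have hA0 : A ≠ 0 := by
    intro h0
    have h1 : (-1 : ℤ) ^ h * (Nat.centralBinom h : ℤ) = 1 := by rw [hA] at h0; linarith
    have h2 := congrArg Int.natAbs h1
    rw [Int.natAbs_mul, Int.natAbs_pow] at h2
    simp at h2
    omega
  have hAle : A.natAbs ≤ 2 ^ (2 * h + 1) := by
    have h1 : A.natAbs ≤ ((-1 : ℤ) ^ h * (Nat.centralBinom h : ℤ)).natAbs + (1 : ℤ).natAbs :=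
      Int.natAbs_sub_le _ _
    have h2 : ((-1 : ℤ) ^ h * (Nat.centralBinom h : ℤ)).natAbs = Nat.centralBinom h := by
      rw [Int.natAbs_mul, Int.natAbs_pow]; simp
    rw [h2] at h1
    have h3 : 1 ≤ 2 ^ (2 * h) := Nat.one_le_two_pow
    rw [pow_succ]
    have h4 : (1 : ℤ).natAbs = 1 := rfl
    omega
  have hsub : T (2 * h + 1) N ⊆ A.natAbs.primeFactors := by
    intro q hq
    rw [mem_T] at hq
    obtain ⟨-, hqp, -, -, -, hs⟩ := hq
    rw [Nat.mem_primeFactors]
    refine ⟨hqp, ?_, by simpa using hA0⟩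
    rw [show (2 * h + 1 - 1) / 2 = h by omega] at hs
    unfold sb at hs
    have h1 : ((A : ℤ) : ZMod q) = 0 := by
      rw [hA]; push_cast; rw [hs]; ring
    rw [ZMod.intCast_zmod_eq_zero_iff_dvd] at h1
    exact Int.natCast_dvd.mp h1
  have hAnat : A.natAbs ≠ 0 := by simpa using hA0
  have hprod : 2 ^ (A.natAbs.primeFactors.card) ≤ A.natAbs := by
    calc 2 ^ (A.natAbs.primeFactors.card) = ∏ _r ∈ A.natAbs.primeFactors, 2 := by simp
      _ ≤ ∏ r ∈ A.natAbs.primeFactors, r := by
          apply prod_le_prod'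
          intro r hr
          exact (Nat.prime_of_mem_primeFactors hr).two_le
      _ ≤ A.natAbs := Nat.le_of_dvd (Nat.pos_of_ne_zero hAnat) (Nat.prod_primeFactors_dvd _)
  have hfin : 2 ^ (A.natAbs.primeFactors.card) ≤ 2 ^ (2 * h + 1) := hprod.trans hAle
  have hle : A.natAbs.primeFactors.card ≤ 2 * h + 1 :=
    (Nat.pow_le_pow_iff_right (by norm_num)).mp hfin
  exact (card_le_card hsub).trans hle

/-- Bound from the condition modulo `p`. -/
lemma card_T_le' {p N D : ℕ} (hp : p.Prime) (hodd : Odd p) (hD : 1 ≤ D) :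
    (T p N).card ≤ (N / p / (2 * p)) * (D * D + (p + 1) / 2 / D + 1) := by
  classical
  have : Fact p.Prime := ⟨hp⟩
  have hpos := hp.pos
  have hsub : (T p N).card ≤
      ((Icc 1 (N / p / (2 * p))).sigma (fun u => sols p ((sb p u)⁻¹))).card := by
    apply card_le_card_of_injOn (fun q => (⟨(q - 1) / 2 / p, (q - 1) / 2 % p⟩ : Σ _ : ℕ, ℕ))
    · intro q hq
      rw [mem_coe, mem_T] at hq
      obtain ⟨hqN, hqp, hqo, hpq, hs, -⟩ := hq
      have hsp := sb_split (p := p) hodd (N := (q - 1) / 2) (by rw [hs]; exact one_ne_zero)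
      rw [hs] at hsp
      have hdm := Nat.div_add_mod ((q - 1) / 2) p
      have hml := Nat.mod_lt ((q - 1) / 2) hpos
      obtain ⟨b, hb⟩ := hqo
      obtain ⟨a, ha⟩ := hodd
      rw [mem_coe, mem_sigma, mem_Icc]
      refine ⟨⟨?_, ?_⟩, ?_⟩
      · by_contra hcon
        push Not at hcon
        have hcon' : (q - 1) / 2 / p < 1 := hcon
        have h0 : (q - 1) / 2 / p = 0 := Nat.lt_one_iff.mp hcon'
        rw [h0, mul_zero, zero_add] at hdm
        have := hsp.1
        omega
      · simp only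
        rw [Nat.div_div_eq_div_mul]
        exact Nat.div_le_div_right (by omega)
      · simp only [sols, mem_filter, mem_range]
        refine ⟨by omega, ?_⟩
        exact eq_inv_of_mul_eq_one_right hsp.2.symm
    · intro q₁ h₁ q₂ h₂ heq
      rw [mem_coe, mem_T] at h₁ h₂
      simp only [Sigma.mk.injEq, heq_eq_eq] at heq
      obtain ⟨ha, hb⟩ := heq
      obtain ⟨a1, hb1⟩ := h₁.2.2.1
      obtain ⟨a2, hb2⟩ := h₂.2.2.1
      have e1 := Nat.div_add_mod ((q₁ - 1) / 2) p
      have e2 := Nat.div_add_mod ((q₂ - 1) / 2) p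
      rw [ha, hb, e2] at e1
      omega
  refine hsub.trans ?_
  rw [card_sigma]
  calc ∑ u ∈ Icc 1 (N / p / (2 * p)), (sols p ((sb p u)⁻¹)).card
      ≤ ∑ u ∈ Icc 1 (N / p / (2 * p)), (D * D + (p + 1) / 2 / D + 1) := by
        apply sum_le_sum
        intro u _
        exact card_sols _ hD
    _ = _ := by simp

/-- cube root -/
noncomputable def c (n : ℕ) : ℝ := (n : ℝ) ^ ((1 : ℝ) / 3)

lemma c_pow (n : ℕ) : c n ^ 3 = n := by
  unfold c
  rw [← Real.rpow_natCast, ← Real.rpow_mul (by positivity)]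
  norm_num

lemma c_nonneg (n : ℕ) : 0 ≤ c n := by unfold c; positivity

lemma one_le_c {n : ℕ} (hn : 1 ≤ n) : 1 ≤ c n := by
  unfold c
  apply Real.one_le_rpow (by exact_mod_cast hn) (by norm_num)

lemma c_mono {m n : ℕ} (h : m ≤ n) : c m ≤ c n := by
  unfold c
  apply Real.rpow_le_rpow (by positivity) (by exact_mod_cast h) (by norm_num)

lemma T_real {p N : ℕ} (hp : p.Prime) (hodd : Odd p) :
    ((T p N).card : ℝ) ≤ 3 * N * (1 / c p ^ 4) := by
  have hp1 : 1 ≤ p := hp.pos
  have hc1 := one_le_c hp1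
  have hc3 := c_pow p
  set x := c p with hx
  set D := ⌈x⌉₊ with hDdef
  have hDx : x ≤ D := Nat.le_ceil x
  have hDx2 : (D : ℝ) < x + 1 := Nat.ceil_lt_add_one (by linarith)
  have hD1 : 1 ≤ D := by
    have : (0 : ℝ) < D := by linarith
    exact_mod_cast this
  have hDpos : (0 : ℝ) < D := by linarith
  have h1 := card_T_le' (N := N) hp hodd hD1
  have h2 : ((T p N).card : ℝ) ≤ ((N / p / (2 * p) : ℕ) : ℝ) * ((D : ℝ) * D + (((p + 1) / 2 / D : ℕ) : ℝ) + 1) := by
    exact_mod_cast h1
  have hpR : (1 : ℝ) ≤ (p : ℝ) := by exact_mod_cast hp1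
  have h3 : ((N / p / (2 * p) : ℕ) : ℝ) ≤ (N : ℝ) / (2 * x ^ 6) := by
    rw [Nat.div_div_eq_div_mul]
    refine (Nat.cast_div_le).trans ?_
    push_cast
    apply le_of_eq
    have : (p : ℝ) * (2 * p) = 2 * x ^ 6 := by
      rw [← hc3]; ring
    rw [this]
  have h4 : (((p + 1) / 2 / D : ℕ) : ℝ) ≤ x ^ 2 := by
    refine (Nat.cast_div_le).trans ?_
    have h5 : (((p + 1) / 2 : ℕ) : ℝ) ≤ p := by
      have : (p + 1) / 2 ≤ p := by omega
      exact_mod_cast this
    rw [div_le_iff₀ hDpos]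
    calc (((p + 1) / 2 : ℕ) : ℝ) ≤ p := h5
      _ = x ^ 2 * x := by rw [← hc3]; ring
      _ ≤ x ^ 2 * D := by
          apply mul_le_mul_of_nonneg_left hDx (by positivity)
  have h6 : (D : ℝ) * D ≤ 4 * x ^ 2 := by nlinarith
  have h7 : (D : ℝ) * D + (((p + 1) / 2 / D : ℕ) : ℝ) + 1 ≤ 6 * x ^ 2 := by nlinarith
  have hx0 : 0 < x := by linarith
  calc ((T p N).card : ℝ) ≤ ((N / p / (2 * p) : ℕ) : ℝ) * ((D : ℝ) * D + (((p + 1) / 2 / D : ℕ) : ℝ) + 1) := h2
    _ ≤ ((N : ℝ) / (2 * x ^ 6)) * (6 * x ^ 2) := by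
        apply mul_le_mul h3 h7 (by positivity) (by positivity)
    _ = 3 * N * (1 / x ^ 4) := by
        field_simp
        ring

lemma sum_c (a b : ℕ) (ha : 1 ≤ a) (hab : a ≤ b) :
    ∑ n ∈ Ioc a b, 1 / c n ^ 4 ≤ 3 / c a - 3 / c b := by
  induction b, hab using Nat.le_induction with
  | base => simp
  | succ b hab ih =>
    rw [← insert_Ioc_right_eq_Ioc_add_one hab, sum_insert (by simp)]
    have hx1 := one_le_c (ha.trans hab)
    have hxy := c_mono (Nat.le_succ b)
    have h3x := c_pow b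
    have h3y := c_pow (b + 1)
    push_cast at h3y
    rw [← h3x] at h3y
    rw [Nat.succ_eq_add_one] at hxy
    set x := c b
    set y := c (b + 1)
    have hx0 : 0 < x := by linarith
    have hy0 : 0 < y := by linarith
    have key : 1 / y ^ 4 ≤ 3 / x - 3 / y := by
      rw [div_sub_div _ _ (ne_of_gt hx0) (ne_of_gt hy0), div_le_div_iff₀ (by positivity) (by positivity)]
      have h1 : (y - x) * (x ^ 2 + x * y + y ^ 2) = 1 := by linear_combination h3y
      have h2 : 1 ≤ 3 * (y - x) * y ^ 2 := by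
        have h5 : 0 ≤ (y - x) ^ 2 * (2 * y + x) := by positivity
        linear_combination h5 - h1
      have h4 : y ≤ 3 * (y - x) * y ^ 3 := by
        have h5 : y * 1 ≤ y * (3 * (y - x) * y ^ 2) := mul_le_mul_of_nonneg_left h2 hy0.le
        linear_combination h5
      have h6 : x * y ≤ (3 * (y - x) * y ^ 3) * y :=
        mul_le_mul_of_nonneg_right (hxy.trans h4) hy0.le
      linear_combination h6
    linarith

/-- **Result.** The number of `n ≤ N` that are products of two distinct odd primes and satisfy the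
congruence `(∗)` is at most `19 * N^(6/7)`. -/
theorem result : ∀ N : ℕ, 1 ≤ N →
    (({n : ℕ | n ≤ N ∧ Exceptional n}.ncard : ℕ) : ℝ) ≤ 19 * (N : ℝ) ^ ((6 : ℝ) / 7) := by
  classical
  intro N hN
  have hNR : (1 : ℝ) ≤ N := by exact_mod_cast hN
  set P := (range (Nat.sqrt N + 1)).filter (fun p => p.Prime ∧ Odd p) with hP
  have hsub : {n : ℕ | n ≤ N ∧ Exceptional n} ⊆
      ((P.biUnion (fun p => (T p N).image (fun q => p * q)) : Finset ℕ) : Set ℕ) := by
    have main : ∀ p q : ℕ, p.Prime → q.Prime → Odd p → Odd q → p < q → p * q ≤ N → Star (p * q) →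
        p * q ∈ P.biUnion (fun p => (T p N).image (fun q => p * q)) := by
      intro p q hp hq hop hoq hlt hle hs
      rw [mem_biUnion]
      refine ⟨p, ?_, ?_⟩
      · rw [hP, mem_filter, mem_range]
        refine ⟨?_, hp, hop⟩
        have : p ≤ Nat.sqrt N := by
          rw [Nat.le_sqrt]
          calc p * p ≤ p * q := Nat.mul_le_mul_left _ hlt.le
            _ ≤ N := hle
        omega
      · rw [mem_image]
        refine ⟨q, ?_, rfl⟩
        rw [mem_T]
        refine ⟨?_, hq, hoq, hlt, sb_of_star hp hop hoq hq.pos hs, ?_⟩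
        · have : q ≤ N / p := by
            rw [Nat.le_div_iff_mul_le hp.pos, mul_comm]; exact hle
          omega
        · apply sb_of_star hq hoq hop hp.pos
          rw [mul_comm q p]; exact hs
    rintro n ⟨hn, p, q, hp, hq, hop, hoq, hne, rfl, hs⟩
    rw [mem_coe]
    rcases Nat.lt_or_gt_of_ne hne with hlt | hlt
    · exact main p q hp hq hop hoq hlt hn hs
    · rw [mul_comm p q] at hn hs ⊢
      exact main q p hq hp hoq hop hlt hn hs
  have hcard : {n : ℕ | n ≤ N ∧ Exceptional n}.ncard ≤ ∑ p ∈ P, (T p N).card := by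
    calc {n : ℕ | n ≤ N ∧ Exceptional n}.ncard
        ≤ ((P.biUnion (fun p => (T p N).image (fun q => p * q)) : Finset ℕ) : Set ℕ).ncard :=
          Set.ncard_le_ncard hsub (Finset.finite_toSet _)
      _ = (P.biUnion (fun p => (T p N).image (fun q => p * q))).card := Set.ncard_coe_finset _
      _ ≤ ∑ p ∈ P, ((T p N).image (fun q => p * q)).card := card_biUnion_le
      _ ≤ ∑ p ∈ P, (T p N).card := sum_le_sum (fun p _ => card_image_le)
  -- the cut
  set w : ℝ := (N : ℝ) ^ ((3 : ℝ) / 7) with hw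
  have hw1 : 1 ≤ w := Real.one_le_rpow hNR (by norm_num)
  set z := ⌊w⌋₊ with hz
  have hz1 : 1 ≤ z := by
    rw [hz]; exact (Nat.one_le_floor_iff w).mpr hw1
  have hzw : (z : ℝ) ≤ w := Nat.floor_le (by linarith)
  have hwz : w < z + 1 := Nat.lt_floor_add_one w
  have hz1R : (1 : ℝ) ≤ z := by exact_mod_cast hz1
  have hsplit : ((∑ p ∈ P, (T p N).card : ℕ) : ℝ) ≤ (z : ℝ) * z + 3 * N * (3 / c z) := by
    have h1 : ((∑ p ∈ P, (T p N).card : ℕ) : ℝ) =
        (∑ p ∈ P.filter (fun p => p ≤ z), ((T p N).card : ℝ)) +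
        ∑ p ∈ P.filter (fun p => ¬ p ≤ z), ((T p N).card : ℝ) := by
      push_cast
      rw [sum_filter_add_sum_filter_not]
    rw [h1]
    apply add_le_add
    · calc (∑ p ∈ P.filter (fun p => p ≤ z), ((T p N).card : ℝ))
          ≤ ∑ p ∈ P.filter (fun p => p ≤ z), (z : ℝ) := by
            apply sum_le_sum
            intro p hp
            rw [mem_filter, hP, mem_filter] at hp
            have := card_T_le (N := N) hp.1.2.1 hp.1.2.2
            exact_mod_cast this.trans hp.2
        _ = ((P.filter (fun p => p ≤ z)).card : ℝ) * z := by simp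
        _ ≤ (z : ℝ) * z := by
            apply mul_le_mul_of_nonneg_right _ (by positivity)
            have : (P.filter (fun p => p ≤ z)).card ≤ (Icc 1 z).card := by
              apply card_le_card
              intro p hp
              rw [mem_filter, hP, mem_filter] at hp
              rw [mem_Icc]
              exact ⟨hp.1.2.1.pos, hp.2⟩
            rw [Nat.card_Icc] at this
            have h2 : (P.filter (fun p => p ≤ z)).card ≤ z := by omega
            exact_mod_cast h2
    · rcases Nat.lt_or_ge z (Nat.sqrt N) with hlt | hge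
      · calc ∑ p ∈ P.filter (fun p => ¬ p ≤ z), ((T p N).card : ℝ)
            ≤ ∑ p ∈ P.filter (fun p => ¬ p ≤ z), 3 * N * (1 / c p ^ 4) := by
              apply sum_le_sum
              intro p hp
              rw [mem_filter, hP, mem_filter] at hp
              exact T_real hp.1.2.1 hp.1.2.2
          _ ≤ ∑ p ∈ Ioc z (Nat.sqrt N), 3 * N * (1 / c p ^ 4) := by
              apply sum_le_sum_of_subset_of_nonneg
              · intro p hp
                rw [mem_filter, hP, mem_filter, mem_range] at hp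
                rw [mem_Ioc]
                constructor <;> omega
              · intro p _ _
                have := c_nonneg p
                positivity
          _ = 3 * N * ∑ p ∈ Ioc z (Nat.sqrt N), 1 / c p ^ 4 := by rw [mul_sum]
          _ ≤ 3 * N * (3 / c z) := by
              apply mul_le_mul_of_nonneg_left _ (by positivity)
              have h2 := sum_c z (Nat.sqrt N) hz1 hlt.le
              have h3 : 0 ≤ 3 / c (Nat.sqrt N) := div_nonneg (by norm_num) (c_nonneg _)
              linarith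
      · have h0 : P.filter (fun p => ¬ p ≤ z) = ∅ := by
          rw [filter_eq_empty_iff]
          intro p hp
          rw [hP, mem_filter, mem_range] at hp
          omega
        rw [h0, sum_empty]
        have := c_nonneg z
        positivity
  -- final estimates
  have hw2 : w * w = (N : ℝ) ^ ((6 : ℝ) / 7) := by
    rw [hw, ← Real.rpow_add (by linarith)]
    norm_num
  have hcz : (N : ℝ) ^ ((1 : ℝ) / 7) / 2 ≤ c z := by
    have h1 : w / 2 ≤ z := by linarith
    have h2 : (w / 2) ^ ((1 : ℝ) / 3) ≤ c z := by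
      unfold c
      exact Real.rpow_le_rpow (by positivity) h1 (by norm_num)
    refine le_trans ?_ h2
    rw [Real.div_rpow (by positivity) (by norm_num), hw, ← Real.rpow_mul (by positivity)]
    have h3 : (3 : ℝ) / 7 * (1 / 3) = 1 / 7 := by norm_num
    rw [h3]
    apply div_le_div_of_nonneg_left (by positivity) (by positivity)
    calc (2 : ℝ) ^ ((1 : ℝ) / 3) ≤ 2 ^ (1 : ℝ) :=
          Real.rpow_le_rpow_of_exponent_le (by norm_num) (by norm_num)
      _ = 2 := by norm_num
  have hN17 : 0 < (N : ℝ) ^ ((1 : ℝ) / 7) := by positivity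
  have h18 : 3 * (N : ℝ) * (3 / c z) ≤ 18 * (N : ℝ) ^ ((6 : ℝ) / 7) := by
    have hcpos : 0 < c z := lt_of_lt_of_le (by positivity) hcz
    have h1 : (N : ℝ) = (N : ℝ) ^ ((6 : ℝ) / 7) * (N : ℝ) ^ ((1 : ℝ) / 7) := by
      rw [← Real.rpow_add (by linarith)]; norm_num
    rw [← mul_div_assoc, div_le_iff₀ hcpos]
    calc 3 * (N : ℝ) * 3 = 18 * (N : ℝ) ^ ((6 : ℝ) / 7) * ((N : ℝ) ^ ((1 : ℝ) / 7) / 2) := by
          conv_lhs => rw [h1]
          ring
      _ ≤ 18 * (N : ℝ) ^ ((6 : ℝ) / 7) * c z := by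
          apply mul_le_mul_of_nonneg_left hcz (by positivity)
  calc (({n : ℕ | n ≤ N ∧ Exceptional n}.ncard : ℕ) : ℝ)
      ≤ ((∑ p ∈ P, (T p N).card : ℕ) : ℝ) := by exact_mod_cast hcard
    _ ≤ (z : ℝ) * z + 3 * N * (3 / c z) := hsplit
    _ ≤ w * w + 18 * (N : ℝ) ^ ((6 : ℝ) / 7) := by
        apply add_le_add _ h18
        apply mul_le_mul hzw hzw (by positivity) (by linarith)
    _ = 19 * (N : ℝ) ^ ((6 : ℝ) / 7) := by rw [hw2]; ring

end Pool.Agent.Results.MP_8dd8b0_nt.SparseExceptions
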